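import Pool.Agent.V7H78.RP.UB.Pl
import Pool.Agent.V7H78.UB.Desc

/-!
# Place data in characteristic `p`
-/

set_option autoImplicit false

namespace Pool.Agent.V7H78.RP.E

open Pool.Agent.V7H78.RP.UB

universe u

variable {p : ℕ} [Fact p.Prime] {k K : Type u} [Field k] [IsAlgClosed k] [Field K] [CharP K p]
  [Algebra k K] (Q : Pool.Agent.V7H78.UB.PD.{u} p k K)

omit [Fact p.Prime] [CharP K p] in
lemma ord_alg' (v : Q.Pl) (c : k) (hc : c ≠ 0) : Q.ord v (algebraMap k K c) = 0 := by
  obtain ⟨t, ht⟩ := IsAlgClosed.exists_pow_nat_eq c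
    (n := (Q.ord v (algebraMap k K c)).natAbs + 1) (Nat.succ_pos _)
  have ht0 : t ≠ 0 := by
    rintro rfl
    rw [zero_pow (Nat.succ_ne_zero _)] at ht
    exact hc ht.symm
  have h1 : Q.ord v (algebraMap k K c) =
      (((Q.ord v (algebraMap k K c)).natAbs + 1 : ℕ) : ℤ) * Q.ord v (algebraMap k K t) := by
    conv_lhs => rw [← ht, map_pow]
    rw [Q.ord_pow v ((map_ne_zero _).mpr ht0)]
  have h2 : (((Q.ord v (algebraMap k K c)).natAbs + 1 : ℕ) : ℤ) ∣ Q.ord v (algebraMap k K c) :=
    ⟨_, h1⟩
  apply Int.eq_zero_of_abs_lt_dvd h2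
  push_cast
  omega

/-- the derivation, linear over the constants -/
noncomputable def DD : Derivation k K K :=
  Derivation.mk'
    { toFun := Q.D
      map_add' := map_add Q.D
      map_smul' := by
        intro c x
        have hp : p ≠ 0 := (Fact.out : p.Prime).ne_zero
        obtain ⟨t, ht⟩ := IsAlgClosed.exists_pow_nat_eq c (Fact.out : p.Prime).pos
        have h1 : Q.D (algebraMap k K c) = 0 := by
          rw [← ht, map_pow, Derivation.leibniz_pow, ← Nat.cast_smul_eq_nsmul K,
            CharP.cast_eq_zero K p, zero_smul]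
        show Q.D (c • x) = c • Q.D x
        rw [Algebra.smul_def, Q.D.leibniz, h1, smul_zero, add_zero, smul_eq_mul, Algebra.smul_def] }
    (by
      intro a b
      exact Q.D.leibniz a b)

omit [Fact p.Prime] in
lemma DD_apply [Fact p.Prime] (x : K) : DD Q x = Q.D x := rfl

lemma DD_iter (j : ℕ) (x : K) : (DD Q)^[j + 1] x = Q.D ((DD Q)^[j] x) := by
  rw [Function.iterate_succ_apply']
  rfl

/-- Place data. -/
noncomputable def toPl : PlaceData.{u} k K where
  Pl := Q.Pl
  ord := Q.ord
  wt := Q.wt
  wt_nonneg v := by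
    have := Q.wt_one v
    omega
  wt_one := Q.wt_one
  ord_mul := Q.ord_mul
  ord_add := Q.ord_add
  ord_alg := ord_alg' Q
  fin := Q.fin
  prod_formula := by
    classical
    intro x hx S hS
    have h1 := Q.prod x hx (S ∪ (Q.fin x hx).toFinset) (by
      intro v hv
      by_contra hne
      exact hv (Finset.mem_union_right _ ((Set.Finite.mem_toFinset _).mpr hne)))
    rw [← h1]
    apply Finset.sum_le_sum_of_subset_of_nonneg Finset.subset_union_left
    intro v _ hv
    have := Q.wt_one v
    exact mul_nonneg (by omega) (hS v hv)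
  const := Q.const
  D := DD Q
  loss v := if Q.dl v = 0 then 0 else Q.dl v + 1
  loss_nonneg := by
    intro v
    have := Q.dl_nonneg v
    split_ifs
    · exact le_rfl
    · omega
  lossS := Q.dl_fin.toFinset
  loss_supp := by
    intro v hv
    rw [if_pos]
    by_contra hne
    exact hv ((Set.Finite.mem_toFinset _).mpr hne)
  lossT := ∑ v ∈ Q.dl_fin.toFinset, Q.wt v * (if Q.dl v = 0 then 0 else Q.dl v + 1)
  loss_sum := le_rfl
  D_ord := by
    intro v x j m hx hD hm
    have hdl := Q.dl_nonneg v
    induction j with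
    | zero => simpa using hm
    | succ j ih =>
      rw [DD_iter] at hD ⊢
      have h0 : (DD Q)^[j] x ≠ 0 := by
        intro h
        rw [h, map_zero] at hD
        exact hD rfl
      have h1 := ih h0
      have h2 := (Q.deriv v _ h0 hD).1
      split_ifs at h1 ⊢ with h
      · push_cast
        rw [h] at h2
        linarith
      · push_cast
        nlinarith
  D_ord' := by
    intro v x j hx hD hm
    have hdl := Q.dl_nonneg v
    induction j with
    | zero => simpa using hm
    | succ j ih =>
      rw [DD_iter] at hD ⊢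
      have h0 : (DD Q)^[j] x ≠ 0 := by
        intro h
        rw [h, map_zero] at hD
        exact hD rfl
      have h1 := ih h0
      have h2 := Q.deriv v _ h0 hD
      split_ifs at h1 ⊢ with h
      · have h3 := h2.2 (by simpa using h1)
        rw [h] at h3
        simpa using h3
      · have h3 := h2.1
        push_cast
        nlinarith

lemma toPl_ker (x : K) (h : (toPl Q).D x = 0) : ∃ y, y ^ p = x := Q.D_ker x h

end Pool.Agent.V7H78.RP.E
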