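import Pool.Agent.V7H78.RP.D.A16

/-!
# Rational maps on the projective line and Frobenius twists
-/

set_option autoImplicit false

namespace Pool.Agent.V7H78.RP.E

open Pool.Agent.V7H78.RP.UH Pool.Agent.V7H78.RP.D Polynomial

/-- the self-map of the projective line given by `p / q` -/
noncomputable def mapP1 {F : Type*} [Field F] (p q : F[X]) (d : ℕ) : Option F → Option F
  | some x => by classical exact if q.eval x = 0 then none else some (p.eval x / q.eval x)
  | none => by classical exact if q.coeff d = 0 then none else some (p.coeff d / q.coeff d)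

section basic

variable {F : Type*} [Field F] {d : ℕ}

lemma mapP1_eq (p q : F[X]) (hp : p.natDegree ≤ d) (hq : q.natDegree ≤ d) (z : Option F) :
    mapP1 p q d z = pt (hev d p (rep z), hev d q (rep z)) := by
  classical
  rcases z with _ | x
  · show (if q.coeff d = 0 then none else some (p.coeff d / q.coeff d)) =
      pt (hev d p (1, 0), hev d q (1, 0))
    rw [hev_zero, hev_zero, one_pow, mul_one, mul_one]
    by_cases h : q.coeff d = 0
    · rw [if_pos h, pt_zero h]
    · rw [if_neg h, pt_of_ne h]
  · show (if q.eval x = 0 then none else some (p.eval x / q.eval x)) =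
      pt (hev d p (x, 1), hev d q (x, 1))
    rw [hev_one d p hp, hev_one d q hq]
    by_cases h : q.eval x = 0
    · rw [if_pos h, pt_zero h]
    · rw [if_neg h, pt_of_ne h]

/-- the twist by a homomorphism -/
lemma mapP1_map {G : Type*} [Field G] (φ : F →+* G) (p q : F[X]) (z : Option F) :
    mapP1 (p.map φ) (q.map φ) d (z.map φ) = (mapP1 p q d z).map φ := by
  classical
  rcases z with _ | x
  · show (if (q.map φ).coeff d = 0 then none else some ((p.map φ).coeff d / (q.map φ).coeff d)) =
      Option.map φ (if q.coeff d = 0 then none else some (p.coeff d / q.coeff d))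
    rw [coeff_map, coeff_map]
    by_cases h : q.coeff d = 0
    · rw [if_pos h, if_pos (by rw [h, map_zero])]
      rfl
    · rw [if_neg h, if_neg (fun h' => h ((map_eq_zero φ).mp h'))]
      show _ = some (φ _)
      rw [map_div₀]
  · show (if (q.map φ).eval (φ x) = 0 then none else some ((p.map φ).eval (φ x) /
      (q.map φ).eval (φ x))) =
      Option.map φ (if q.eval x = 0 then none else some (p.eval x / q.eval x))
    rw [eval_map, eval₂_hom, eval_map, eval₂_hom]
    by_cases h : q.eval x = 0
    · rw [if_pos h, if_pos (by rw [h, map_zero])]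
      rfl
    · rw [if_neg h, if_neg (fun h' => h ((map_eq_zero φ).mp h'))]
      show _ = some (φ _)
      rw [map_div₀]

lemma deg_le {p q : F[X]} (h : max p.natDegree q.natDegree = d) :
    p.natDegree ≤ d ∧ q.natDegree ≤ d := ⟨h ▸ le_max_left _ _, h ▸ le_max_right _ _⟩

lemma lead_of_max {p q : F[X]} (hd : 1 ≤ d) (hmax : max p.natDegree q.natDegree = d) :
    p.coeff d ≠ 0 ∨ q.coeff d ≠ 0 := by
  rcases le_total p.natDegree q.natDegree with h | h
  · right
    rw [max_eq_right h] at hmax
    rw [← hmax]
    apply leadingCoeff_ne_zero.mpr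
    rintro rfl
    rw [natDegree_zero] at hmax
    omega
  · left
    rw [max_eq_left h] at hmax
    rw [← hmax]
    apply leadingCoeff_ne_zero.mpr
    rintro rfl
    rw [natDegree_zero] at hmax
    omega

lemma max_of_lead {p q : F[X]} (hp : p.natDegree ≤ d) (hq : q.natDegree ≤ d)
    (h : p.coeff d ≠ 0 ∨ q.coeff d ≠ 0) : max p.natDegree q.natDegree = d := by
  apply le_antisymm (max_le hp hq)
  rcases h with h | h
  · exact le_max_of_le_left (le_natDegree_of_ne_zero h)
  · exact le_max_of_le_right (le_natDegree_of_ne_zero h)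

end basic

section twist

variable {K L : Type*} [Field K] [Field L] [Algebra K L] {d : ℕ}

lemma act_eq_mapP1 (R : RD K L d) (z : Option L) :
    R.act z = mapP1 (R.p.map (algebraMap K L)) (R.q.map (algebraMap K L)) d z := by
  rw [mapP1_eq _ _ (natDegree_map_le.trans R.hp) (natDegree_map_le.trans R.hq)]
  rfl

/-- the structure from coprime polynomials -/
noncomputable def mkRD (L : Type*) [Field L] [Algebra K L] (hd : 1 ≤ d) (p q : K[X])
    (hco : IsCoprime p q) (hmax : max p.natDegree q.natDegree = d) : RD K L d where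
  p := p
  q := q
  hp := (deg_le hmax).1
  hq := (deg_le hmax).2
  nv := nv_of_coprime p q (deg_le hmax).1 (deg_le hmax).2 hco (lead_of_max hd hmax)

/-- The map `p / q` of degree `d` is conjugate over `L` to a map with coefficients algebraic
over `k`. -/
def Iso1 (k : Type*) {L : Type*} [Field k] [Field L] [Algebra k L] (p q : L[X]) (d : ℕ) : Prop :=
  ∃ a b c e : L, a * e - b * c ≠ 0 ∧ ∃ u w : L[X], IsCoprime u w ∧
    max u.natDegree w.natDegree = d ∧ (∀ n, IsAlgebraic k (u.coeff n)) ∧
    (∀ n, IsAlgebraic k (w.coeff n)) ∧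
    ∀ z : Option L, mapP1 (C a * X + C b) (C c * X + C e) 1 (mapP1 p q d z) =
      mapP1 u w d (mapP1 (C a * X + C b) (C c * X + C e) 1 z)

lemma mapP1_mb (U V : L × L) (z : Option L) :
    mapP1 (C U.1 * X + C V.1) (C U.2 * X + C V.2) 1 z = mb U V z := by
  rw [mapP1_eq _ _ (lin_deg _ _) (lin_deg _ _)]
  unfold mb
  congr 1
  have e : ∀ (a b : L) (X : L × L), hev 1 (C a * Polynomial.X + C b) X = a * X.1 + b * X.2 := by
    intro a b X
    unfold hev
    rw [Finset.sum_range_succ, Finset.sum_range_one]
    simp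
    ring
  rw [e, e]
  unfold gx
  ext
  · simp only [Prod.fst_add, Prod.smul_fst, smul_eq_mul]
    ring
  · simp only [Prod.snd_add, Prod.smul_snd, smul_eq_mul]
    ring

/-- isotriviality is invariant under twists by Frobenius -/
theorem iso_of_twist [IsAlgClosed L] (k : Type*) [Field k] [Algebra k L] {E : Type*} [Field E]
    [Algebra E L] (hE : ∀ c : E, IsAlgebraic k (algebraMap E L c)) (p : ℕ) [Fact p.Prime]
    [CharP L p] (j : ℕ)
    (f g : L[X]) (R : RD K L d)
    (hf : f.map (iterateFrobenius L p j) = R.p.map (algebraMap K L))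
    (hg : g.map (iterateFrobenius L p j) = R.q.map (algebraMap K L))
    (h : IsoT E R) : Iso1 k f g d := by
  obtain ⟨U, V, hw, R0, hR0⟩ := h
  set φ := iterateFrobenius L p j with hφ
  have hφ' : ∀ x, φ x = x ^ p ^ j := fun x => iterateFrobenius_def _ _ _
  have hroot : ∀ y : L, ∃ z, φ z = y := by
    intro y
    obtain ⟨z, hz⟩ := IsAlgClosed.exists_pow_nat_eq y (pow_pos (Fact.out : p.Prime).pos j)
    exact ⟨z, by rw [hφ', hz]⟩
  choose r hr using hroot
  obtain ⟨u, hu⟩ := Polynomial.map_surjective φ (fun y => ⟨r y, hr y⟩)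
    (R0.p.map (algebraMap E L))
  obtain ⟨w, hw'⟩ := Polynomial.map_surjective φ (fun y => ⟨r y, hr y⟩)
    (R0.q.map (algebraMap E L))
  set U' : L × L := (r U.1, r U.2) with hU'
  set V' : L × L := (r V.1, r V.2) with hV'
  have hUf : fv p j U' = U := by
    unfold fv
    ext
    · show (r U.1) ^ p ^ j = U.1
      rw [← hφ', hr]
    · show (r U.2) ^ p ^ j = U.2
      rw [← hφ', hr]
  have hVf : fv p j V' = V := by
    unfold fv
    ext
    · show (r V.1) ^ p ^ j = V.1
      rw [← hφ', hr]
    · show (r V.2) ^ p ^ j = V.2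
      rw [← hφ', hr]
  have hw2 : wd U' V' ≠ 0 := by
    intro h0
    apply hw
    rw [← hUf, ← hVf, wd_fv, h0, zero_pow (pow_ne_zero _ (Fact.out : p.Prime).ne_zero)]
  have hcoR0 : IsCoprime R0.p R0.q := R0.coprime
  have hco : IsCoprime u w := by
    rw [← Polynomial.isCoprime_map φ, hu, hw']
    exact (Polynomial.isCoprime_map _).mpr hcoR0
  have hlead : u.coeff d ≠ 0 ∨ w.coeff d ≠ 0 := by
    rcases R0.lead with h | h
    · left
      intro h0
      have h1 : (R0.p.map (algebraMap E L)).coeff d = 0 := by
        rw [← hu, coeff_map, h0, map_zero]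
      rw [coeff_map] at h1
      exact h ((map_eq_zero _).mp h1)
    · right
      intro h0
      have h1 : (R0.q.map (algebraMap E L)).coeff d = 0 := by
        rw [← hw', coeff_map, h0, map_zero]
      rw [coeff_map] at h1
      exact h ((map_eq_zero _).mp h1)
  have hud : u.natDegree ≤ d := by
    rw [← natDegree_map_eq_of_injective φ.injective, hu]
    exact natDegree_map_le.trans R0.hp
  have hwd : w.natDegree ≤ d := by
    rw [← natDegree_map_eq_of_injective φ.injective, hw']
    exact natDegree_map_le.trans R0.hq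
  have halg : ∀ (u : L[X]) (P : E[X]), u.map φ = P.map (algebraMap E L) →
      ∀ n, IsAlgebraic k (u.coeff n) := by
    intro u P hu n
    have h1 : φ (u.coeff n) = algebraMap E L (P.coeff n) := by
      rw [← coeff_map, hu, coeff_map]
    rw [hφ'] at h1
    have h2 := hE (P.coeff n)
    rw [← h1] at h2
    exact IsAlgebraic.of_pow (pow_pos (Fact.out : p.Prime).pos j) h2
  have hfz : ∀ z : Option L, z.map φ = fz p j z := by
    intro z
    rfl
  -- the untwisted semiconjugacy
  have hsemi : ∀ z, mapP1 f g d (mb U' V' z) = mb U' V' (mapP1 u w d z) := by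
    intro z
    apply fz_inj p j
    have hmb : ∀ z : Option L, fz p j (mb U' V' z) = mb U V (fz p j z) := by
      intro z
      unfold mb
      rw [← pt_fv, fv_gx, hUf, hVf, rep_fz]
    rw [hmb, ← hfz, ← hfz, ← mapP1_map, ← mapP1_map, hu, hw', hfz, hfz, hmb, hf, hg,
      ← act_eq_mapP1, ← act_eq_mapP1, hR0]
  refine ⟨V'.2, -V'.1, -U'.2, U'.1, ?_, u, w, hco, max_of_lead hud hwd hlead, halg u _ hu,
    halg w _ hw', ?_⟩
  · intro h0
    apply hw2
    unfold wd
    linear_combination h0
  · have hm : ∀ z : Option L, mapP1 (C V'.2 * X + C (-V'.1)) (C (-U'.2) * X + C U'.1) 1 z =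
        mi U' V' z := by
      intro z
      have := mapP1_mb ((V'.2, -U'.2) : L × L) (-V'.1, U'.1) z
      rw [mi_eq, ← this]
    intro z
    rw [hm, hm]
    have h1 := hsemi (mi U' V' z)
    rw [mb_mi hw2] at h1
    rw [h1, mi_mb hw2]

end twist

end Pool.Agent.V7H78.RP.E
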