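import Pool.Agent.V7H78.RP.E.P2

/-!
# Transport of bounds along Frobenius
-/

set_option autoImplicit false

namespace Pool.Agent.V7H78.RP.E

open Pool.Agent.V7H78.RP.UH Pool.Agent.V7H78.RP.D Polynomial

/-- A bound for stable sets over `K` gives a bound for preperiodic points over the perfect
closure. -/
theorem transport {Ω K' E : Type*} [Field Ω] [IsAlgClosed Ω] [Field K'] [Field E] [Algebra K' Ω]
    [Algebra E Ω] (k : Type*) [Field k] [Algebra k Ω]
    (hE : ∀ c : E, IsAlgebraic k (algebraMap E Ω c)) (p : ℕ) [Fact p.Prime] [CharP Ω p]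
    (M : Subfield Ω)
    (hM : ∀ x ∈ M, ∃ n : ℕ, ∀ m, n ≤ m → ∃ y : K', algebraMap K' Ω y = x ^ p ^ m)
    {d : ℕ} (hd : 1 ≤ d) (N : ℕ) (G : RD K' Ω d → Prop) (per : Prop)
    (hb : ∀ R : RD K' Ω d, G R → ¬ IsoT E R → ∀ P : Finset (Option Ω),
      (∀ z ∈ P, z ∈ Set.range (eb Ω : Option K' → Option Ω)) → (∀ z ∈ P, R.act z ∈ P) →
      (per → ∀ z ∈ P, z ∈ Function.periodicPts R.act) → P.card ≤ N)
    (f g : Polynomial Ω) (hco : IsCoprime f g) (hmax : max f.natDegree g.natDegree = d)
    (hf : ∀ n, f.coeff n ∈ M) (hg : ∀ n, g.coeff n ∈ M)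
    (hG : ∀ (R : RD K' Ω d) (j : ℕ), f.map (iterateFrobenius Ω p j) = R.p.map (algebraMap K' Ω) →
      g.map (iterateFrobenius Ω p j) = R.q.map (algebraMap K' Ω) → G R)
    (hiso : ¬ Iso1 k f g d) :
    {z : Option Ω | (∀ x, z = some x → x ∈ M) ∧
      (Set.range fun m : ℕ => (mapP1 f g d)^[m] z).Finite ∧
      (per → z ∈ Function.periodicPts (mapP1 f g d))}.encard ≤ (N : ℕ∞) := by
  classical
  by_contra hcon
  push Not at hcon
  obtain ⟨T, hTs, hT⟩ := Set.exists_subset_encard_eq (Order.add_one_le_of_lt hcon)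
  have hTf : T.Finite := by
    apply Set.finite_of_encard_eq_coe (k := N + 1)
    rw [hT]
    norm_cast
  have h1 : (⋃ z ∈ T, Set.range fun m : ℕ => (mapP1 f g d)^[m] z).Finite :=
    hTf.biUnion fun z hz => (hTs hz).2.1
  set P1 : Finset (Option Ω) := h1.toFinset with hP1
  have hP1st : ∀ z ∈ P1, mapP1 f g d z ∈ P1 := by
    intro z hz
    rw [hP1, Set.Finite.mem_toFinset, Set.mem_iUnion₂] at hz ⊢
    obtain ⟨w, hw, m, hm⟩ := hz
    refine ⟨w, hw, m + 1, ?_⟩
    simp only at hm ⊢
    rw [Function.iterate_succ_apply', hm]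
  have hP1T : hTf.toFinset ⊆ P1 := by
    intro z hz
    rw [Set.Finite.mem_toFinset] at hz
    rw [hP1, Set.Finite.mem_toFinset, Set.mem_iUnion₂]
    exact ⟨z, hz, 0, rfl⟩
  have hP1c : N + 1 ≤ P1.card := by
    have h4 := Finset.card_le_card hP1T
    have h5 : (hTf.toFinset.card : ℕ∞) = N + 1 := by
      rw [← hT, hTf.encard_eq_coe_toFinset_card]
    have h6 : hTf.toFinset.card = N + 1 := by exact_mod_cast h5
    omega
  have hP1per : per → ∀ z ∈ P1, z ∈ Function.periodicPts (mapP1 f g d) := by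
    intro hper z hz
    rw [hP1, Set.Finite.mem_toFinset, Set.mem_iUnion₂] at hz
    obtain ⟨w, hw, m, hm⟩ := hz
    simp only at hm
    obtain ⟨n, hn, hnw⟩ := (hTs hw).2.2 hper
    refine ⟨n, hn, ?_⟩
    rw [← hm]
    exact hnw.apply_iterate m
  -- points over `M`
  have heval : ∀ (f : Polynomial Ω), (∀ n, f.coeff n ∈ M) → ∀ x ∈ M, f.eval x ∈ M := by
    intro f hf x hx
    rw [eval_eq_sum_range]
    exact sum_mem fun i _ => mul_mem (hf i) (pow_mem hx i)
  have hMst : ∀ z : Option Ω, (∀ x, z = some x → x ∈ M) →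
      ∀ x, mapP1 f g d z = some x → x ∈ M := by
    intro z hz x hx
    rcases z with _ | y
    · have h2 : (if g.coeff d = 0 then none else some (f.coeff d / g.coeff d)) = some x := hx
      by_cases h : g.coeff d = 0
      · rw [if_pos h] at h2
        exact absurd h2 (by simp)
      · rw [if_neg h] at h2
        rw [← Option.some_injective _ h2]
        exact div_mem (hf d) (hg d)
    · have hy := hz y rfl
      have h2 : (if g.eval y = 0 then none else some (f.eval y / g.eval y)) = some x := hx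
      by_cases h : g.eval y = 0
      · rw [if_pos h] at h2
        exact absurd h2 (by simp)
      · rw [if_neg h] at h2
        rw [← Option.some_injective _ h2]
        exact div_mem (heval f hf y hy) (heval g hg y hy)
  have hP1M : ∀ z ∈ P1, ∀ x, z = some x → x ∈ M := by
    intro z hz
    rw [hP1, Set.Finite.mem_toFinset, Set.mem_iUnion₂] at hz
    obtain ⟨w, hw, m, hm⟩ := hz
    simp only at hm
    have h2 : ∀ m : ℕ, ∀ x, (mapP1 f g d)^[m] w = some x → x ∈ M := by
      intro m
      induction m with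
      | zero => exact (hTs hw).1
      | succ m ih =>
        rw [Function.iterate_succ_apply']
        exact hMst _ ih
    rw [← hm]
    exact h2 m
  -- a common exponent
  have hexp : ∀ x : Ω, ∃ n : ℕ, x ∈ M → ∀ m, n ≤ m → ∃ y : K', algebraMap K' Ω y = x ^ p ^ m := by
    intro x
    by_cases hx : x ∈ M
    · obtain ⟨n, hn⟩ := hM x hx
      exact ⟨n, fun _ => hn⟩
    · exact ⟨0, fun h => absurd h hx⟩
  choose e he using hexp
  set j : ℕ := (P1.sup fun z => e (z.getD 0)) + (((Finset.range (d + 1)).sup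
    fun i => e (f.coeff i)) + (Finset.range (d + 1)).sup fun i => e (g.coeff i)) with hj
  have hjP : ∀ z ∈ P1, ∃ y : Option K', eb Ω y = fz p j z := by
    intro z hz
    rcases z with _ | x
    · exact ⟨none, rfl⟩
    · have h2 : e x ≤ j := by
        have h3 := Finset.le_sup (f := fun z : Option Ω => e (z.getD 0)) hz
        exact h3.trans (Nat.le_add_right _ _)
      obtain ⟨y, hy⟩ := he x (hP1M _ hz x rfl) j h2
      exact ⟨some y, congrArg some hy⟩
  set φ : Ω →+* Ω := iterateFrobenius Ω p j with hφ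
  have hφ' : ∀ x, φ x = x ^ p ^ j := fun x => iterateFrobenius_def _ _ _
  have hlift : ∀ f : Polynomial Ω, (∀ n, f.coeff n ∈ M) → f.natDegree ≤ d →
      (∀ i ∈ Finset.range (d + 1), e (f.coeff i) ≤ j) →
      ∃ F : K'[X], F.map (algebraMap K' Ω) = f.map φ := by
    intro f hf hfd hfe
    have h2 : f.map φ ∈ lifts (algebraMap K' Ω) := by
      rw [lifts_iff_coeff_lifts]
      intro i
      rw [coeff_map, hφ']
      by_cases hi : i ≤ d
      · obtain ⟨y, hy⟩ := he (f.coeff i) (hf i) j (hfe i (Finset.mem_range.mpr (by omega)))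
        exact ⟨y, hy⟩
      · rw [coeff_eq_zero_of_natDegree_lt (by omega),
          zero_pow (pow_ne_zero _ (Fact.out : p.Prime).ne_zero)]
        exact ⟨0, map_zero _⟩
    obtain ⟨F, hF⟩ := h2
    exact ⟨F, hF⟩
  obtain ⟨F, hF⟩ := hlift f hf (deg_le hmax).1 fun i hi => by
    have h3 := Finset.le_sup (f := fun i => e (f.coeff i)) hi
    omega
  obtain ⟨H, hH⟩ := hlift g hg (deg_le hmax).2 fun i hi => by
    have h3 := Finset.le_sup (f := fun i => e (g.coeff i)) hi
    omega
  have hFd : F.natDegree = f.natDegree := by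
    rw [← natDegree_map_eq_of_injective (algebraMap K' Ω).injective, hF,
      natDegree_map_eq_of_injective φ.injective]
  have hHd : H.natDegree = g.natDegree := by
    rw [← natDegree_map_eq_of_injective (algebraMap K' Ω).injective, hH,
      natDegree_map_eq_of_injective φ.injective]
  have hcoF : IsCoprime F H := by
    rw [← Polynomial.isCoprime_map (algebraMap K' Ω), hF, hH]
    exact (Polynomial.isCoprime_map _).mpr hco
  set R : RD K' Ω d := mkRD Ω hd F H hcoF (by rw [hFd, hHd, hmax]) with hR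
  have hRF : f.map φ = R.p.map (algebraMap K' Ω) := hF.symm
  have hRH : g.map φ = R.q.map (algebraMap K' Ω) := hH.symm
  have hact : ∀ z, R.act (fz p j z) = fz p j (mapP1 f g d z) := by
    intro z
    rw [act_eq_mapP1, ← hRF, ← hRH]
    exact mapP1_map φ f g z
  have hfin := hb R (hG R j hRF hRH)
    (fun h => hiso (iso_of_twist k hE p j f g R hRF hRH h))
    (P1.image (fz p j)) (by
      intro z hz
      obtain ⟨w, hw, rfl⟩ := Finset.mem_image.mp hz
      obtain ⟨y, hy⟩ := hjP w hw
      exact ⟨y, hy⟩) (by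
      intro z hz
      obtain ⟨w, hw, rfl⟩ := Finset.mem_image.mp hz
      rw [hact]
      exact Finset.mem_image_of_mem _ (hP1st w hw)) (by
      intro hper z hz
      obtain ⟨w, hw, rfl⟩ := Finset.mem_image.mp hz
      obtain ⟨n, hn, hnw⟩ := hP1per hper w hw
      refine ⟨n, hn, ?_⟩
      have hnw' : (mapP1 f g d)^[n] w = w := hnw
      have h7 : ∀ n : ℕ, R.act^[n] (fz p j w) = fz p j ((mapP1 f g d)^[n] w) := by
        intro n
        induction n with
        | zero => rfl
        | succ n ih => rw [Function.iterate_succ_apply', Function.iterate_succ_apply', ih, hact]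
      show R.act^[n] (fz p j w) = fz p j w
      rw [h7, hnw'])
  rw [Finset.card_image_of_injective _ (fz_inj p j)] at hfin
  omega

end Pool.Agent.V7H78.RP.E
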