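import Pool.Agent.V7H78.RP.E.P3
import Pool.Agent.V7H78.RP.E.P1
import Pool.Agent.V7H78.UB.Field

/-!
# From function fields over an algebraically closed field to general function fields
-/

set_option autoImplicit false

namespace Pool.Agent.V7H78.RP.E

open Pool.Agent.V7H78.RP.UH Pool.Agent.V7H78.RP.D Pool.Agent.V7H78.RP.UB Polynomial IntermediateField

universe u

section Main

variable {p : ℕ} [hp : Fact p.Prime]

/-- A function field embeds into a function field over an algebraically closed field. -/
lemma exists_big' (k K : Type u) [Field k] [CharP k p] [Field K] [Algebra k K]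
    (hFG : (⊤ : IntermediateField k K).FG)
    (hx : ∃ x : K, Transcendental k x ∧ Algebra.IsAlgebraic (IntermediateField.adjoin k {x}) K) :
    ∃ (E K' : Type u) (_ : Field E) (_ : IsAlgClosed E) (_ : Field K') (_ : Algebra E K')
      (_ : CharP K' p)
      (κ : K' →+* AlgebraicClosure K),
      (∀ x, ∃ y, κ y = algebraMap K (AlgebraicClosure K) x) ∧
      (∀ c, IsAlgebraic k c → ∃ y, κ y = c) ∧
      (∀ c : E, IsAlgebraic k (κ (algebraMap E K' c))) ∧ Nonempty (Pool.Agent.V7H78.UB.PD.{u} p E K') := by
  classical
  obtain ⟨x, hxt, hxa⟩ := hx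
  set Ω := AlgebraicClosure K
  set E := algebraicClosure k Ω with hE
  have : IsAlgClosed E := (IsAlgClosure.isAlgClosed k : IsAlgClosed (algebraicClosure k Ω))
  have : CharP E p := charP_of_injective_algebraMap (algebraMap k E).injective p
  obtain ⟨T, hT⟩ := hFG
  set T' : Finset Ω := T.image (algebraMap K Ω) with hT'
  set K' := IntermediateField.adjoin E (T' : Set Ω) with hK'
  have : CharP K' p := charP_of_injective_algebraMap (algebraMap E K').injective p
  have hmem : ∀ y : K, algebraMap K Ω y ∈ K' := by
    intro y
    have h1 : y ∈ IntermediateField.adjoin k (T : Set K) := by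
      rw [hT]
      trivial
    have h2 : algebraMap K Ω y ∈ IntermediateField.adjoin k (T' : Set Ω) := by
      have h3 := IntermediateField.adjoin_map k (T : Set K) (IsScalarTower.toAlgHom k K Ω)
      have h4 : (IsScalarTower.toAlgHom k K Ω) '' (T : Set K) = (T' : Set Ω) := by
        rw [hT', Finset.coe_image]
        rfl
      rw [h4] at h3
      rw [← h3]
      exact ⟨y, h1, rfl⟩
    have h5 : IntermediateField.adjoin k (T' : Set Ω) ≤ K'.restrictScalars k := by
      rw [IntermediateField.adjoin_le_iff]
      exact IntermediateField.subset_adjoin E (T' : Set Ω)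
    exact h5 h2
  let ι : K →+* K' := (algebraMap K Ω).codRestrict K'.toSubfield.toSubring hmem
  have hι : ∀ y, (algebraMap K' Ω) (ι y) = algebraMap K Ω y := fun _ => rfl
  set x' : K' := ι x with hx'
  have hx't : Transcendental E x' := by
    have h1 : Transcendental k (algebraMap K Ω x) :=
      (transcendental_algebraMap_iff (algebraMap K Ω).injective).mpr hxt
    have h2 : Transcendental E (algebraMap K Ω x) := h1.algebraicClosure
    intro h
    apply h2
    have h3 : IsAlgebraic E (algebraMap K' Ω x') := h.algebraMap
    exact h3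
  have hrange : ∀ y ∈ IntermediateField.adjoin k {x}, ι y ∈ IntermediateField.adjoin E {x'} := by
    have h1 : IntermediateField.adjoin k {x} ≤
        ({ (IntermediateField.adjoin E {x'}).toSubfield.comap ι with
           algebraMap_mem' := by
            intro c
            have h2 : ι (algebraMap k K c) = algebraMap E K' (algebraMap k E c) := by
              apply (algebraMap K' Ω).injective
              rw [hι]
              rfl
            have h3 : ι (algebraMap k K c) ∈ IntermediateField.adjoin E {x'} := by
              rw [h2]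
              exact (IntermediateField.adjoin E {x'}).algebraMap_mem _
            exact h3 } : IntermediateField k K) := by
      rw [IntermediateField.adjoin_le_iff]
      rintro y hy
      rw [Set.mem_singleton_iff] at hy
      subst hy
      exact IntermediateField.mem_adjoin_simple_self E x'
    intro y hy
    exact h1 hy
  have hΩalg : Algebra.IsAlgebraic (IntermediateField.adjoin k {x}) Ω :=
    Algebra.IsAlgebraic.trans (IntermediateField.adjoin k {x}) K Ω
  have hxa' : Algebra.IsAlgebraic (IntermediateField.adjoin E {x'}) K' := by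
    constructor
    intro z
    obtain ⟨P, hP0, hPz⟩ := hΩalg.isAlgebraic (z : Ω)
    set ψ : IntermediateField.adjoin k {x} →+* K' :=
      ι.comp (algebraMap (IntermediateField.adjoin k {x}) K) with hψ
    have h1 : P.map ψ ∈ lifts (algebraMap (IntermediateField.adjoin E {x'}) K') := by
      rw [lifts_iff_coeff_lifts]
      intro n
      rw [coeff_map]
      exact ⟨⟨_, hrange _ (P.coeff n).2⟩, rfl⟩
    obtain ⟨q, hq⟩ := h1
    have hq' : q.map (algebraMap (IntermediateField.adjoin E {x'}) K') = P.map ψ := hq
    refine ⟨q, ?_, ?_⟩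
    · rintro rfl
      rw [Polynomial.map_zero] at hq'
      exact hP0 ((Polynomial.map_eq_zero _).mp hq'.symm)
    · rw [← eval_map_algebraMap, hq']
      apply (algebraMap K' Ω).injective
      rw [map_zero, eval_map, hom_eval₂]
      exact hPz
  have hFG' : (⊤ : IntermediateField E K').FG := by
    rw [fg_top_iff, essFiniteType_iff]
    exact ⟨T', rfl⟩
  obtain ⟨Q⟩ := Pool.Agent.V7H78.UB.exists_pd_alg (p := p) E K' hFG' x' hx't hxa'
  refine ⟨E, K', inferInstance, inferInstance, inferInstance, inferInstance, inferInstance,
    algebraMap K' Ω, fun y => ⟨ι y, hι y⟩, ?_, ?_, ⟨Q⟩⟩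
  · intro c hc
    have h1 : c ∈ E := mem_algebraicClosure_iff.mpr hc
    exact ⟨algebraMap E K' ⟨c, h1⟩, rfl⟩
  · intro c
    have h1 : algebraMap K' Ω (algebraMap E K' c) = (c : Ω) := rfl
    rw [h1]
    exact mem_algebraicClosure_iff.mp c.2


/-- Bounds for stable sets over function fields with algebraically closed constants; the
statement is restricted to separable maps if `sep` holds, and to sets of periodic points if `per`
holds. -/
def Hyp (p d : ℕ) [Fact p.Prime] (sep per : Prop) : Prop :=
  ∀ (E K' : Type u) [Field E] [IsAlgClosed E] [Field K'] [Algebra E K'] [CharP K' p]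
    (Q : PlaceData.{u} E K'), (∀ x : K', Q.D x = 0 → ∃ y, y ^ p = x) →
    (∀ x : K', (∀ n : ℕ, ∃ y : K', y ^ p ^ n = x) → ∃ c : E, algebraMap E K' c = x) →
    ∃ N : ℕ, ∀ (L : Type u) [Field L] [IsAlgClosed L] [CharP L p] [Algebra K' L] [Algebra E L]
      [IsScalarTower E K' L] (R : RD K' L d), (sep → R.wr ≠ 0) → ¬ IsoT E R →
      ∀ P : Finset (Option L), (∀ z ∈ P, z ∈ Set.range (eb L : Option K' → Option L)) →
      (∀ z ∈ P, R.act z ∈ P) → (per → ∀ z ∈ P, z ∈ Function.periodicPts R.act) → P.card ≤ N

/-- Uniform boundedness over the perfect closure of the compositum of `K` and the algebraic closure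
of `k`. -/
theorem ubp_of (k K : Type u) [Field k] [CharP k p] [Field K] [Algebra k K]
    (hFG : (⊤ : IntermediateField k K).FG)
    (hx : ∃ x : K, Transcendental k x ∧ Algebra.IsAlgebraic (IntermediateField.adjoin k {x}) K)
    (d : ℕ) (hd : 2 ≤ d) (sep per : Prop) (H : Hyp.{u} p d sep per) : ∃ B : ℕ,
    ∀ f g : Polynomial (AlgebraicClosure K), IsCoprime f g → max f.natDegree g.natDegree = d →
      (sep → derivative f * g - f * derivative g ≠ 0) →
      (∀ n, f.coeff n ∈ perfectClosure (IntermediateField.adjoin K
        {c : AlgebraicClosure K | IsAlgebraic k c}) (AlgebraicClosure K)) →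
      (∀ n, g.coeff n ∈ perfectClosure (IntermediateField.adjoin K
        {c : AlgebraicClosure K | IsAlgebraic k c}) (AlgebraicClosure K)) →
      ¬ Iso1 k f g d →
      {z : Option (AlgebraicClosure K) | (∀ x, z = some x → x ∈ perfectClosure
        (IntermediateField.adjoin K {c : AlgebraicClosure K | IsAlgebraic k c})
          (AlgebraicClosure K)) ∧
        (Set.range fun m : ℕ => (mapP1 f g d)^[m] z).Finite ∧
        (per → z ∈ Function.periodicPts (mapP1 f g d))}.encard ≤ (B : ℕ∞) := by
  classical
  obtain ⟨E, K', _, _, _, _, _, κ, hκK, hκE, hκalg, ⟨Q⟩⟩ := exists_big' (p := p) k K hFG hx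
  obtain ⟨N, hN⟩ := H E K' (toPl Q) (toPl_ker Q) fun x hx => Q.const_of_pow hx
  set Ω := AlgebraicClosure K with hΩ
  have : CharP K p := charP_of_injective_algebraMap (algebraMap k K).injective p
  have : CharP Ω p := charP_of_injective_algebraMap (algebraMap K Ω).injective p
  set M : IntermediateField K Ω := IntermediateField.adjoin K {c : Ω | IsAlgebraic k c} with hM
  have : ExpChar M p := by
    have : CharP M p := charP_of_injective_algebraMap (algebraMap K M).injective p
    exact ExpChar.prime (Fact.out : p.Prime)
  have hMκ : ∀ z ∈ M, ∃ y, κ y = z := by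
    have h1 : M ≤ ({ κ.fieldRange with
        algebraMap_mem' := by
          intro c
          exact hκK c } : IntermediateField K Ω) := by
      rw [hM, IntermediateField.adjoin_le_iff]
      intro c hc
      exact hκE c hc
    intro z hz
    exact h1 hz
  let _ : Algebra K' Ω := κ.toAlgebra
  let _ : Algebra E Ω := (κ.comp (algebraMap E K')).toAlgebra
  have : IsScalarTower E K' Ω := IsScalarTower.of_algebraMap_eq fun _ => rfl
  refine ⟨N, fun f g hco hmax hsep hf hg hiso => ?_⟩
  have h := transport (Ω := Ω) (K' := K') (E := E) k hκalg p (perfectClosure M Ω).toSubfield (by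
    intro x hx
    obtain ⟨n, hn⟩ := (mem_perfectClosure_iff_pow_mem p).mp hx
    refine ⟨n, fun m hm => ?_⟩
    obtain ⟨y0, hy0⟩ := hn
    apply hMκ
    obtain ⟨j, rfl⟩ := Nat.exists_eq_add_of_le hm
    rw [pow_add, pow_mul, ← hy0]
    exact pow_mem y0.2 _) (d := d) (by omega) N (fun R => sep → R.wr ≠ 0) per
    (fun R hG hiso P hPK hst hper => hN Ω R hG hiso P hPK hst hper) f g hco hmax hf hg (by
      intro R j hRf hRg hs h0
      apply hsep hs
      apply Polynomial.map_injective (iterateFrobenius Ω p j) (iterateFrobenius Ω p j).injective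
      have h1 := congrArg (Polynomial.map (algebraMap K' Ω)) h0
      unfold RD.wr at h1
      rw [Polynomial.map_sub, Polynomial.map_mul, Polynomial.map_mul, ← derivative_map,
        ← derivative_map, ← hRf, ← hRg] at h1
      rw [Polynomial.map_sub, Polynomial.map_mul, Polynomial.map_mul, ← derivative_map,
        ← derivative_map, h1, Polynomial.map_zero, Polynomial.map_zero]) hiso
  exact h

/-- the separable case -/
theorem hyp_sep (p d : ℕ) [Fact p.Prime] (hd : 2 ≤ d) : Hyp.{u} p d True False := by
  obtain ⟨B0, hB0⟩ := stepHyp.{u, u, u} p d hd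
  intro E K' _ _ _ _ _ Q hker hk
  have : Infinite E := IsAlgClosed.instInfinite
  have : Infinite K' := Infinite.of_injective _ (algebraMap E K').injective
  refine ⟨fB d (max B0 ((q₀ d) ^ (48 * d * (d + 1) * Q.lossT.toNat))),
    fun L _ _ _ _ _ _ R hsep hiso P hPK hst _ => ?_⟩
  exact bound_sep hd (hB0 E K' Q hker) R (three_of_not_isoT (k := E) hd hiso) (hsep trivial) P hPK hst
    (term_of_not_isoT (k := E) hd hk R P hPK hst hiso _)

/-- the case of periodic points -/
theorem hyp_per (p d : ℕ) [Fact p.Prime] (hd : 2 ≤ d) : Hyp.{u} p d False True := by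
  obtain ⟨B0, hB0⟩ := stepHyp.{u, u, u} p d hd
  intro E K' _ _ _ _ _ Q hker hk
  have : Infinite E := IsAlgClosed.instInfinite
  have : Infinite K' := Infinite.of_injective _ (algebraMap E K').injective
  refine ⟨fB d (max B0 ((q₀ d) ^ (48 * d * (d + 1) * Q.lossT.toNat))),
    fun L _ _ _ _ _ _ R _ hiso P hPK hst hper => ?_⟩
  exact bound_per hd (hB0 E K' Q hker) R (three_of_not_isoT (k := E) hd hiso) P hPK hst
    (hper trivial) (term_of_not_isoT (k := E) hd hk R P hPK hst hiso _)

end Main

end Pool.Agent.V7H78.RP.E
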