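import Pool.Agent.V7H78.RP.E.P4
import Pool.Agent.V7H78.RP.D.A20

/-!
# All rational maps in positive characteristic
-/

set_option autoImplicit false

namespace Pool.Agent.V7H78.RP.E

open Pool.Agent.V7H78.RP.UH Pool.Agent.V7H78.RP.UG Pool.Agent.V7H78.RP.D Pool.Agent.V7H78.RP.UB
  Polynomial IntermediateField

universe u

/-- **All maps.** -/
theorem hyp_all (p d : ℕ) [Fact p.Prime] (hd : 2 ≤ d) : Hyp.{u} p d False False := by
  obtain ⟨B0, hB0⟩ := stepHyp.{u, u, u} p d hd
  intro E K' _ _ _ _ _ Q hker hk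
  have : Infinite E := IsAlgClosed.instInfinite
  have : Infinite K' := Infinite.of_injective _ (algebraMap E K').injective
  obtain ⟨N, hN⟩ := bound_insep.{u, u, u, u} hd Q hker (hB0 E K' Q hker)
  refine ⟨max N (fB d (max B0 ((q₀ d) ^ (48 * d * (d + 1) * Q.lossT.toNat)))),
    fun L _ _ _ _ _ _ R _ hiso P hPK hst _ => ?_⟩
  by_cases hw : R.wr = 0
  · exact (hN L R hw (three_of_not_isoT (k := E) hd hiso) P hPK hst
      (fun P' hPK' hst' => term_of_not_isoT (k := E) hd hk R P' hPK' hst' hiso _)).trans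
      (le_max_left _ _)
  · exact (bound_sep hd (hB0 E K' Q hker) R (three_of_not_isoT (k := E) hd hiso) hw P hPK hst
      (term_of_not_isoT (k := E) hd hk R P hPK hst hiso _)).trans (le_max_right _ _)

/-- **Uniform boundedness in positive characteristic.** -/
theorem ubp_char_p (p : ℕ) [Fact p.Prime] (k K : Type u) [Field k] [CharP k p] [Field K]
    [Algebra k K] (hFG : (⊤ : IntermediateField k K).FG)
    (hx : ∃ x : K, Transcendental k x ∧ Algebra.IsAlgebraic (IntermediateField.adjoin k {x}) K)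
    (d : ℕ) (hd : 2 ≤ d) : ∃ B : ℕ,
    ∀ f g : Polynomial (AlgebraicClosure K), IsCoprime f g → max f.natDegree g.natDegree = d →
      (∀ n, f.coeff n ∈ perfectClosure (IntermediateField.adjoin K
        {c : AlgebraicClosure K | IsAlgebraic k c}) (AlgebraicClosure K)) →
      (∀ n, g.coeff n ∈ perfectClosure (IntermediateField.adjoin K
        {c : AlgebraicClosure K | IsAlgebraic k c}) (AlgebraicClosure K)) →
      ¬ Iso1 k f g d →
      {z : Option (AlgebraicClosure K) | (∀ x, z = some x → x ∈ perfectClosure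
        (IntermediateField.adjoin K {c : AlgebraicClosure K | IsAlgebraic k c})
          (AlgebraicClosure K)) ∧
        (Set.range fun m : ℕ => (mapP1 f g d)^[m] z).Finite}.encard ≤ (B : ℕ∞) := by
  obtain ⟨B, hB⟩ := ubp_of k K hFG hx d hd False False (hyp_all p d hd)
  refine ⟨B, fun f g hco hmax hf hg hiso => ?_⟩
  have h := hB f g hco hmax (fun h => h.elim) hf hg hiso
  refine le_trans (Set.encard_le_encard ?_) h
  rintro z ⟨h1, h2⟩
  exact ⟨h1, h2, fun h => h.elim⟩

end Pool.Agent.V7H78.RP.E
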